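import Pool.Agent.Helper56.Un.E8Stmts

set_option autoImplicit false

/-!
# MP_8410ab_nt, unitary family: E_DUAL, the minimum of the dual lattice of `E₈`
-/

namespace Pool.Agent.Helper19.Un

open MeasureTheory Topology
open scoped ComplexConjugate

theorem edual_inner (ξ : E 4) (x y z w : ℂ) : (inner ℂ ξ (!₂[x, y, z, w] : E 4)).re =
    ((ξ 0).re * x.re + (ξ 0).im * x.im) + ((ξ 1).re * y.re + (ξ 1).im * y.im) +
    ((ξ 2).re * z.re + (ξ 2).im * z.im) + ((ξ 3).re * w.re + (ξ 3).im * w.im) := by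
  rw [PiLp.inner_apply, Fin.sum_univ_four]
  simp [Complex.mul_re]
  ring

theorem edual_norm (ξ : E 4) : ‖ξ‖ ^ 2 =
    ((ξ 0).re ^ 2 + (ξ 0).im ^ 2) + ((ξ 1).re ^ 2 + (ξ 1).im ^ 2) +
    ((ξ 2).re ^ 2 + (ξ 2).im ^ 2) + ((ξ 3).re ^ 2 + (ξ 3).im ^ 2) := by
  rw [EuclideanSpace.norm_sq_eq, Fin.sum_univ_four, Complex.sq_norm, Complex.sq_norm,
      Complex.sq_norm, Complex.sq_norm, Complex.normSq_apply, Complex.normSq_apply,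
      Complex.normSq_apply, Complex.normSq_apply]
  ring

theorem st_EDUAL : ST_EDUAL := by
  intro ξ hξ h
  obtain ⟨k0, h0⟩ := h 0
  obtain ⟨k1, h1⟩ := h 1
  obtain ⟨k2, h2⟩ := h 2
  obtain ⟨k3, h3⟩ := h 3
  obtain ⟨k4, h4⟩ := h 4
  obtain ⟨k5, h5⟩ := h 5
  obtain ⟨k6, h6⟩ := h 6
  obtain ⟨k7, h7⟩ := h 7
  have s3 : Real.sqrt 3 * Real.sqrt 3 = 3 := Real.mul_self_sqrt (by norm_num)
  have e0 : bE8 0 = (!₂[th, 0, 0, 0] : E 4) := rfl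
  have e1 : bE8 1 = (!₂[th * om, 0, 0, 0] : E 4) := rfl
  have e2 : bE8 2 = (!₂[1, 1, 1, 0] : E 4) := rfl
  have e3 : bE8 3 = (!₂[om, om, om, 0] : E 4) := rfl
  have e4 : bE8 4 = (!₂[0, th, 0, 0] : E 4) := rfl
  have e5 : bE8 5 = (!₂[0, th * om, 0, 0] : E 4) := rfl
  have e6 : bE8 6 = (!₂[0, 1, -1, 1] : E 4) := rfl
  have e7 : bE8 7 = (!₂[0, om, -om, om] : E 4) := rfl
  rw [e0, edual_inner] at h0
  rw [e1, edual_inner] at h1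
  rw [e2, edual_inner] at h2
  rw [e3, edual_inner] at h3
  rw [e4, edual_inner] at h4
  rw [e5, edual_inner] at h5
  rw [e6, edual_inner] at h6
  rw [e7, edual_inner] at h7
  simp only [om, th, Complex.mul_re, Complex.mul_im,
    Complex.one_re, Complex.one_im, Complex.zero_re, Complex.zero_im, Complex.neg_re,
    Complex.neg_im] at h0 h1 h2 h3 h4 h5 h6 h7
  have hn := edual_norm ξ
  generalize (ξ 0).re = a0 at h0 h1 h2 h3 h4 h5 h6 h7 hn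
  generalize (ξ 0).im = b0 at h0 h1 h2 h3 h4 h5 h6 h7 hn
  generalize (ξ 1).re = a1 at h0 h1 h2 h3 h4 h5 h6 h7 hn
  generalize (ξ 1).im = b1 at h0 h1 h2 h3 h4 h5 h6 h7 hn
  generalize (ξ 2).re = a2 at h0 h1 h2 h3 h4 h5 h6 h7 hn
  generalize (ξ 2).im = b2 at h0 h1 h2 h3 h4 h5 h6 h7 hn
  generalize (ξ 3).re = a3 at h0 h1 h2 h3 h4 h5 h6 h7 hn
  generalize (ξ 3).im = b3 at h0 h1 h2 h3 h4 h5 h6 h7 hn
  generalize Real.sqrt 3 = r at s3 h0 h1 h2 h3 h4 h5 h6 h7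
  -- `m i = b i / √3`
  obtain ⟨m0, hm0⟩ : ∃ m0, m0 = r * b0 / 3 := ⟨_, rfl⟩
  obtain ⟨m1, hm1⟩ : ∃ m1, m1 = r * b1 / 3 := ⟨_, rfl⟩
  obtain ⟨m2, hm2⟩ : ∃ m2, m2 = r * b2 / 3 := ⟨_, rfl⟩
  obtain ⟨m3, hm3⟩ : ∃ m3, m3 = r * b3 / 3 := ⟨_, rfl⟩
  have q0 : b0 ^ 2 = 3 * m0 ^ 2 := by rw [hm0]; linear_combination (-b0 ^ 2 / 3) * s3
  have q1 : b1 ^ 2 = 3 * m1 ^ 2 := by rw [hm1]; linear_combination (-b1 ^ 2 / 3) * s3
  have q2 : b2 ^ 2 = 3 * m2 ^ 2 := by rw [hm2]; linear_combination (-b2 ^ 2 / 3) * s3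
  have q3 : b3 ^ 2 = 3 * m3 ^ 2 := by rw [hm3]; linear_combination (-b3 ^ 2 / 3) * s3
  have g0 : (k0 : ℝ) = 3 * m0 := by rw [hm0]; linear_combination -h0
  have g1 : (k1 : ℝ) = -(3 / 2) * a0 - 3 / 2 * m0 := by
    rw [hm0]; linear_combination -h1 - (1 / 2) * a0 * s3
  have g2 : (k2 : ℝ) = a0 + a1 + a2 := by linear_combination -h2
  have g3 : (k3 : ℝ) = -(1 / 2) * (a0 + a1 + a2) + 3 / 2 * (m0 + m1 + m2) := by
    rw [hm0, hm1, hm2]; linear_combination -h3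
  have g4 : (k4 : ℝ) = 3 * m1 := by rw [hm1]; linear_combination -h4
  have g5 : (k5 : ℝ) = -(3 / 2) * a1 - 3 / 2 * m1 := by
    rw [hm1]; linear_combination -h5 - (1 / 2) * a1 * s3
  have g6 : (k6 : ℝ) = a1 - a2 + a3 := by linear_combination -h6
  have g7 : (k7 : ℝ) = -(1 / 2) * (a1 - a2 + a3) + 3 / 2 * (m1 - m2 + m3) := by
    rw [hm1, hm2, hm3]; linear_combination -h7
  rw [q0, q1, q2, q3] at hn
  obtain ⟨Q, hQ⟩ : ∃ Q : ℤ, Q = k0 ^ 2 + k0 * k1 - 2 * k0 * k3 + 2 * k0 * k4 + k0 * k5 - k0 * k7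
      + k1 ^ 2 + 2 * k1 * k2 + k1 * k4 + 2 * k1 * k5 + k1 * k6 + 2 * k2 ^ 2 + 2 * k2 * k3
      + 3 * k2 * k5 + 2 * k2 * k6 + k2 * k7 + 2 * k3 ^ 2 - 3 * k3 * k4 + k3 * k6 + 2 * k3 * k7
      + 2 * k4 ^ 2 + 2 * k4 * k5 - 2 * k4 * k7 + 2 * k5 ^ 2 + 2 * k5 * k6 + k6 ^ 2 + k6 * k7
      + k7 ^ 2 := ⟨_, rfl⟩
  have key : ‖ξ‖ ^ 2 = 4 / 3 * (Q : ℝ) := by
    rw [hn, hQ]
    push_cast
    rw [g0, g1, g2, g3, g4, g5, g6, g7]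
    ring
  have hpos : 0 < ‖ξ‖ ^ 2 := by
    have := norm_pos_iff.mpr hξ
    positivity
  rw [key] at hpos ⊢
  have h5 : (0 : ℝ) < (Q : ℝ) := by linarith
  have h6 : 0 < Q := by exact_mod_cast h5
  have h7 : 1 ≤ Q := h6
  have h8 : (1 : ℝ) ≤ (Q : ℝ) := by exact_mod_cast h7
  linarith

end Pool.Agent.Helper19.Un
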